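import Pool.Agent.TH132.E.GIff

/-!
# MP_7b53ad_ag: Tate classes on the products of any variety with almost all members of an independent family

Let `G` be a class of varieties with an action of a group `Γ` (in the intended use the abelian
varieties over a field `k` finitely generated over its prime field, and the absolute Galois group of
`k`) on their cohomology, closed under products. Let `X i`, for `i` in an arbitrary (for instance
infinite) set, be members of `G` such that `Γ` acts semisimply on the cohomology of their products,
and which are **jointly independent**: for every product `A` of copies of one `X i` and every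
product `B` of copies of the other members all Tate classes on `A × B` are linear combinations
of products of Tate classes on `A` and on `B`. For instance, pairwise non-isogenous elliptic curves
over a number field or over a finite field.

Then for **every** `Z` in `G` there is a finite set `E` of indices with at most
`dim H(Z) - dim (span of the Tate classes on Z)` elements such that for all products `A` of powers of
the `X i`, `i ∉ E`, all Tate classes on `A × Z` are linear combinations of products of Tate classes on
`A` and on `Z`. Hence the Tate conjecture for `A × Z` holds, in all degrees, if and only if it holds
for `A` and for `Z`.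

So if the Tate conjecture holds for the abelian variety `Z` of dimension `g`, then it holds for the
products of `Z` with all elliptic curves outside less than `4 ^ g` isogeny classes. Nothing is assumed
on the action on the cohomology of `Z`; `Z` may be any variety, not only an abelian variety.
-/

set_option autoImplicit false

open CategoryTheory AlgebraicGeometry

universe u v w

namespace Pool.Agent.Results.MP_7b53ad_ag.AllButFewFactors

open Pool.Agent.H914 VarClass Obj WeilCohomology Pool.Agent.TH125.Gal Pool.Agent.TH132.E

/-- **Tate classes on the products of any variety with the members of an independent family, with few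
exceptions.** -/
theorem result {k : Type u} [Field k] {𝒱 : VarClass k} {ops : CycleOps 𝒱}
    {W : WeilCohomology.{u, v} ops} {Γ : Type w} [Group Γ] (χ : Γ →* W.Kˣ)
    {G : Set (GVar W Γ)} (hG : GaloisClass χ G) (ht : ∀ X ∈ G, W.tr X.X ≠ 0) {ι : Type}
    [DecidableEq ι] (X : ι → GVar W Γ) (hX : IndependentFamily χ X G) {Z : GVar W Γ}
    (hZ : Z ∈ G) :
    ∃ E : Finset ι, E.card + numTate χ Z ≤ totalBetti W Z.X ∧
      ∀ J : Finset ι, Disjoint J E → ∀ A, GTowerOf X G J A → ∀ C, IsProdVar A Z C →
        TateSplits χ A Z C ∧
          (TateConjecture χ C ↔ TateConjecture χ A ∧ TateConjecture χ Z) := by
  obtain ⟨E, hE, h⟩ := tate_exceptional hG hX Z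
  refine ⟨E, hE, fun J hJ A hA C hC => ⟨h J hJ A hA C hC, ?_⟩⟩
  exact tateConjecture_prod_iff hG ht (hA.gProduct.mem' hX.mem) hZ hC (h J hJ A hA C hC)

end Pool.Agent.Results.MP_7b53ad_ag.AllButFewFactors
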