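import Pool.Agent.TH5.DT.Conv

/-!
# Tate classes between an abelian variety with abelian Galois action and an arbitrary one

Let `k` be an algebraically closed field of characteristic `0` (the closure of `ℚ_l`), `Γ` a
finitely generated group (a finitely generated dense subgroup of the image of the Galois group in
the group of automorphisms of all the Tate modules; such a subgroup exists since the image is a
compact `l`-adic Lie group), `ε` the cyclotomic character, and `V t`, `t` in a finite set `T`, the
constituents of the Tate modules of two abelian varieties, with coefficients extended to `k`: those
with `A t` belong to the first one, the others to the second one.  A multilinear form in variables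
`v a ∈ V (t a)` is a tensor in the cohomology of products of powers of the two varieties.
It is a Tate form (`IsTateForm`) if the elements `γ` of a subgroup of finite index multiply it by
`x γ`, where `x ^ N = ε ^ m` on a subgroup of finite index for some `N > 0` and `m` (by purity
`m / N` is then half of the number of variables, up to the sign; for an even number of variables
these are the Tate classes).

Suppose that the `V t` not of type `A` are irreducible for all subgroups of finite index (this holds
after a finite extension of the field) and that the spaces of forms are completely reducible (for
abelian varieties this holds by Faltings, Zarhin and Chevalley).  The determinant condition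
(`DetIndependent`) says: if a product of powers of the characters `det (V t)`, `t ∈ T`, is a rational
power of `ε` up to finite order, then so is its part over the `t` of type `A`.  (The sets of
constituents of abelian varieties are stable under `V ↦ dual of V ⊗ ε`, so that this means: the
groups generated by the determinants of the constituents of the two varieties meet, up to finite
order, only in the rational powers of `ε`.)

(A) If `Γ` acts on the `V t` of type `A` by scalars (varieties of CM type, constant varieties over
function fields, after a finite extension), then all Tate forms are combinations of products
of a Tate form of the first and a Tate form of the second variety **if and only if** the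
determinant condition holds.

(B) If all `V t` are irreducible for all subgroups of finite index, the determinant condition
holds if and only if no stable line of forms of the first variety is dual to a stable line of
forms of the second one, up to a rational power of `ε` and finite order, other than lines of Tate
forms.

(C) The determinant condition holds if every `V t` not of type `A` is self-dual up to a
rational power of `ε` (there is a Tate form `≠ 0` in two variables from `V t`).

The main point is `Pool.Agent.TH5.DT.dets`: on a stable line of forms in variables
from irreducible modules every element acts, up to roots of unity, by the product of the
`(dim V)`-th roots of the determinants.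
-/

set_option autoImplicit false

namespace Pool.Agent.Results.MP_7b53ad_ag.DeterminantCriterion

open Pool.Agent.TH5.DT

theorem result {k : Type} [Field k] [CharZero k] [IsAlgClosed k] {Γ : Type} [Group Γ]
    [Group.FG Γ] (ε : Γ →* kˣ) {T : Type} [Fintype T] (V : T → Type) [∀ t, AddCommGroup (V t)]
    [∀ t, Module k (V t)] [∀ t, FiniteDimensional k (V t)] [∀ t, Nontrivial (V t)]
    (ρ : ∀ t, Γ →* (V t →ₗ[k] V t)) (A : T → Prop)
    (hirr : ∀ t, ¬ A t → PotIrreducible V ρ t) (hcr : FormsCompletelyReducible V ρ) :
    ((∀ t, A t → ∀ γ, ∃ c : k, ∀ v, ρ t γ v = c • v) →
      (TateSplits ε V ρ A ↔ DetIndependent ε V ρ A)) ∧
    ((∀ t, A t → PotIrreducible V ρ t) →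
      (NoCommonCharacter ε V ρ A ↔ DetIndependent ε V ρ A)) ∧
    ((∀ t, ¬ A t → ∃ f : MultilinearMap k (fun _ : Fin 2 => V t) k, f ≠ 0 ∧
      IsTateForm ε V ρ (fun _ : Fin 2 => t) f) → DetIndependent ε V ρ A) := by
  refine ⟨fun hA => ⟨detIndependent_of_splits ε V ρ A hA,
    splits_of_detIndependent ε V ρ A hA hirr hcr⟩, fun hA => ?_,
    detIndependent_of_selfDual ε V ρ A hirr hcr⟩
  refine noCommon_iff ε V ρ A (fun t => ?_) hcr
  by_cases ht : A t
  · exact hA t ht
  · exact hirr t ht

end Pool.Agent.Results.MP_7b53ad_ag.DeterminantCriterion
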