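import Mathlib
import Pool.Agent.TH118.IS.Two

/-!
# The Tate conjecture for abelian varieties with isolated eigenvalues of inertia

Let `A` be an abelian variety over a number field `F` (or over a field finitely generated over its
prime field), `V` its rational Tate module over `ℚ_ℓ`, `ℓ` different from the characteristic, `ρ` the
action of the Galois group `Γ`, `χ` the cyclotomic character, `ω` the Weil pairing of a polarization.
Let `K` be the algebraic closure of `ℚ_ℓ` and `X = K ⊗ V`.  A subspace of `X` is *strongly
irreducible* (`SI`) if it is a minimal nonzero subspace stable under a subgroup of finite index.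

Suppose that `X` is the sum of strongly irreducible subspaces `E i`, none of them isotropic.
(If the endomorphism ring of `A` over the algebraic closure is `ℤ` there is just one, `E = X`;
for types I and II of Albert they correspond to the embeddings of the centre in `K`.)  Suppose that
for each `i` there is an element `γ` of the group (in applications a generator of tame inertia),
of finite order on `X`, such that the eigenvalues of `γ` on `E i` are divided into two nonempty sets
`A` and `B`, both stable under the duality `α ↦ χ(γ) / α`, and for all `α` in `A` and `β` in `B`

* `α` or `β` is a simple eigenvalue on `E i`;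
* the only pairs `(α', β')` of eigenvalues on `E i` with `β' / α' = β / α` are `(α, β)` and the dual
  pair `(χ(γ) / β, χ(γ) / α)`;
* all triples `α', α' (β / α), α' (β / α) ^ 2` of eigenvalues on any `E j` are self-dual, and the
  outer eigenvalues are simple.

Suppose finally that for each `i` there is a diagonalizable element of the group (a Frobenius
element) with two eigenvectors in `E i` such that the quotient of the eigenvalues is not a root of
unity.  (This always holds for abelian varieties, as otherwise the connected component of the
`ℓ`-adic monodromy group would act by scalars on `E i`.)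

Theorem.  All Tate classes on all powers `A ^ n` are linear combinations of exterior products of
Tate classes of degree two.  By the theorems of Faltings, Zarhin, Mori and Tate those are
combinations of classes of divisors: the Tate conjecture holds for the powers of `A` in all
codimensions (and so for all motives in the tensor category generated by the motive of `A`).

Example.  Let `A` be the Jacobian of a hyperelliptic curve `y ^ 2 = f(x)`, with endomorphism ring
`ℤ`, and let `v` be a finite place such that `f` modulo `v` has one multiple root, of odd multiplicity
`e = 2 m + 1 < 2 g + 1`, `g = dim A`, and the factor of `f` over the completion that belongs to it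
is `(x - a) ^ e - t` with the valuation of `t` prime to `2 e`, `v` not dividing `2 e ℓ`.  So the
reduction of the curve has one singular point, of type `A_{2m}`, and its normalization has genus
`g - m`, positive.  A generator of tame inertia has the eigenvalue `1` with multiplicity `2 g - 2 m` and
the simple eigenvalues `-ζ ^ j`, `ζ` of order `e`, `0 < j < e`.  With `A = {1}` all
conditions hold: `β = -ζ ^ j` has even order and all quotients of two eigenvalues different from `1`
have odd order.  So ONE such place is enough for the Tate conjecture in all codimensions for all
powers of `A`; no place of bad semistable reduction is needed.  For `m = 1` this is the case of one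
cusp; the singularities `A_{2m}` for `m` greater than one give finite inertia groups without
elements of small rank, where the methods for unipotent rank one do not apply.

The proof.  Let `𝔤` be the Lie algebra of the operators on `X` that kill all Tate classes; by
the Frobenius elements it contains elements that are not scalars on `E i`.  Let `P` be the
sum of the eigenspaces of `γ` in `E i` for the eigenvalues in `A`.  If `𝔤` preserved `P` and the sum
`Q` of the other eigenspaces, then so it would with all their translates, and it is shown that `𝔤`
would act through scalars on `E i`.  So for some `α` in `A` and `β` in `B` the component of some element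
of `𝔤` which maps `E_α` to `E_β`, or `E_β` to `E_α`, is not zero; the projection of that element
to the eigenspace of the conjugation by `γ` with eigenvalue `β / α`, or `α / β`, is an element `N`
of `𝔤` with `N ^ 2 = 0` and of rank one or two on `E i`.  Then `𝔤` contains the symplectic Lie
algebra of `E i`, and the first fundamental theorem is used.
-/

namespace Pool.Agent.Results.MP_7b53ad_ag.IsolatedEigenvalues

open Module TensorProduct Pool.Agent.H204R3.SP Pool.Agent.H204R3.GP Pool.Agent.W522.U
open Pool.Agent.TH118.CR Pool.Agent.TH118.CU Pool.Agent.TH118.IS

theorem result (ℓ : ℕ) [Fact ℓ.Prime]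
    {V : Type} [AddCommGroup V] [Module ℚ_[ℓ] V] [FiniteDimensional ℚ_[ℓ] V]
    {Γ : Type} [Group Γ] (ρ : Representation ℚ_[ℓ] Γ V) (χ : Γ →* ℚ_[ℓ])
    (ω : V →ₗ[ℚ_[ℓ]] V →ₗ[ℚ_[ℓ]] ℚ_[ℓ]) (halt : ∀ v, ω v v = 0)
    (hnondeg : ∀ u, (∀ v, ω v u = 0) → u = 0)
    (hω : ∀ s u v, ω (ρ s u) (ρ s v) = χ s * ω u v)
    (hss : FiniteIndexSemisimple ρ)
    {I : Type} (E : I → Submodule (AlgebraicClosure ℚ_[ℓ]) (AlgebraicClosure ℚ_[ℓ] ⊗[ℚ_[ℓ]] V))
    (hE : SumOfSI (bcr ρ (AlgebraicClosure ℚ_[ℓ])) E)
    (hni : NotIsotropic E (bcb (AlgebraicClosure ℚ_[ℓ]) ω))
    (hiso : HasIsolatedPairs (bcr ρ (AlgebraicClosure ℚ_[ℓ])) (bcc χ (AlgebraicClosure ℚ_[ℓ])) E)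
    (hfrob : HasFrobenii (bcr ρ (AlgebraicClosure ℚ_[ℓ])) E) :
    TateGeneratedInDegreeTwo ρ χ := by
  refine generated_of_ext ρ χ (AlgebraicClosure ℚ_[ℓ]) fun m φ hφ => ?_
  refine iso_pt (bcb (AlgebraicClosure ℚ_[ℓ]) ω) ?_ ?_ ?_ (hasProj_bcr ρ _ hss) hE hni hiso hfrob
    φ hφ
  · exact fun v => bcb_alt ω halt v
  · exact fun u hu => bcb_nondeg_left ω hnondeg (left_nondeg ω halt hnondeg) u hu
  · exact fun g u v => bcb_inv ρ χ ω hω g u v

end Pool.Agent.Results.MP_7b53ad_ag.IsolatedEigenvalues
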